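import Pool.Agent.N975.S21V.Wq
import Pool.Agent.N975.S21V.Ap
import Pool.Agent.N218.T21.Tam
import Pool.Agent.N809.PQ.Def
import Pool.Agent.N975.CHB
import Pool.Agent.N974.PG.GnE
import Pool.Agent.N971.EX.Per17
import Pool.Agent.N975.LatGen

/-!
# Level `21`: the central values vanish for the root number `-1`, all quadratic twists
-/

set_option autoImplicit false
set_option linter.style.haveILetI false

open Finset UpperHalfPlane MatrixGroups CongruenceSubgroup ZMod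

namespace Pool.Agent.N975.S21V

open Pool.Agent.N974.Gen (II E21)
open Pool.Agent.N402.MF21 (f21 eigen21)
open Pool.Agent.N969.P15 (un)
open Pool.Agent.W97.MT (ap)
open Pool.Agent.Y700 (IsL Omega)
open Pool.Agent.N218.T21 (EE)
open Pool.Agent.N637.P21 (WN Em c4_WN c6_WN c4_Em c6_Em WN_Δ)
open Pool.Agent.N809.PQ (w21)

/-- the quadratic character of the field of the twist -/
structure Chr (m : ℤ) (q : ℕ) (χ : ℤ → ℤ) : Prop where
  lt : 1 < q
  mul : ∀ a b, χ (a * b) = χ a * χ b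
  per : ∀ a b, (q : ℤ) ∣ a - b → χ a = χ b
  pm : ∀ u : ℕ, Nat.Coprime u q → χ u = 1 ∨ χ u = -1
  zero : ∀ u : ℕ, ¬ Nat.Coprime u q → χ u = 0
  one : χ 1 = 1
  neg : χ (-1) = if 0 < m then 1 else -1
  prime : ∀ p : ℕ, p.Prime → p ≠ 2 → χ p = jacobiSym m p
  dvd : ∀ p : ℕ, p.Prime → p ≠ 2 → (p ∣ q ↔ (p : ℤ) ∣ m)
  dir : ∃ (_ : NeZero q) (ψ : DirichletCharacter ℂ q), ψ.IsPrimitive ∧ ψ⁻¹ = ψ ∧
    ∀ u : ℕ, ψ (u : ZMod q) = (χ u : ℂ)
  ap : ∀ p : ℕ, p.Prime → ap (EE m) p = ap E21 p * χ p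
  disc : ∀ p : ℕ, p.Prime → ((p : ℤ) ∣ (EE m).Δ ↔ p ∣ 21 ∨ p ∣ q)

/-- the part of the level prime to the discriminant -/
def QQ (m : ℤ) : ℕ := (if (3 : ℤ) ∣ m then 1 else 3) * (if (7 : ℤ) ∣ m then 1 else 7)

theorem QQ_cases (m : ℤ) : QQ m = 1 ∨ QQ m = 3 ∨ QQ m = 7 ∨ QQ m = 21 := by
  unfold QQ
  split_ifs <;> simp

theorem jac3 (m : ℤ) : jacobiSym m 3 = if m % 3 = 0 then 0 else if m % 3 = 1 then 1 else -1 := by
  rw [jacobiSym.mod_left]
  have h1 : 0 ≤ m % 3 := Int.emod_nonneg _ (by norm_num)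
  have h2 : m % 3 < 3 := Int.emod_lt_of_pos _ (by norm_num)
  have e : m % ((3 : ℕ) : ℤ) = m % 3 := rfl
  rw [e]
  generalize m % 3 = r at h1 h2
  interval_cases r <;> decide +kernel

theorem jac7 (m : ℤ) : jacobiSym m 7 =
    if m % 7 = 0 then 0 else if m % 7 = 3 ∨ m % 7 = 5 ∨ m % 7 = 6 then -1 else 1 := by
  rw [jacobiSym.mod_left]
  have h1 : 0 ≤ m % 7 := Int.emod_nonneg _ (by norm_num)
  have h2 : m % 7 < 7 := Int.emod_lt_of_pos _ (by norm_num)
  have e : m % ((7 : ℕ) : ℤ) = m % 7 := rfl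
  rw [e]
  generalize m % 7 = r at h1 h2
  interval_cases r <;> decide +kernel

namespace Chr

variable {m : ℤ} {q : ℕ} {χ : ℤ → ℤ} (H : Chr m q χ)
include H

theorem three : χ 3 = jacobiSym m 3 := by
  have := H.prime 3 Nat.prime_three (by norm_num)
  exact_mod_cast this

theorem seven : χ 7 = jacobiSym m 7 := by
  have := H.prime 7 (by norm_num) (by norm_num)
  exact_mod_cast this

theorem cop : Nat.Coprime (QQ m) q := by
  unfold QQ
  have h3 := H.dvd 3 Nat.prime_three (by norm_num)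
  have h7 := H.dvd 7 (by norm_num) (by norm_num)
  push_cast at h3 h7
  refine Nat.Coprime.mul_left ?_ ?_
  · split_ifs with h
    · exact Nat.coprime_one_left q
    · exact (Nat.Prime.coprime_iff_not_dvd Nat.prime_three).2 fun h' => h (h3.1 h')
  · split_ifs with h
    · exact Nat.coprime_one_left q
    · exact (Nat.Prime.coprime_iff_not_dvd (by norm_num)).2 fun h' => h (h7.1 h')

theorem lev : 21 ∣ QQ m * q := by
  unfold QQ
  have h3 := H.dvd 3 Nat.prime_three (by norm_num)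
  have h7 := H.dvd 7 (by norm_num) (by norm_num)
  push_cast at h3 h7
  have a3 : 3 ∣ (if (3 : ℤ) ∣ m then 1 else 3) * (if (7 : ℤ) ∣ m then 1 else 7) * q := by
    split_ifs with h h'
    · exact dvd_mul_of_dvd_right (h3.2 h) _
    · exact dvd_mul_of_dvd_right (h3.2 h) _
    · exact ⟨q, by ring⟩
    · exact ⟨7 * q, by ring⟩
  have a7 : 7 ∣ (if (3 : ℤ) ∣ m then 1 else 3) * (if (7 : ℤ) ∣ m then 1 else 7) * q := by
    split_ifs with h h' h'
    · exact dvd_mul_of_dvd_right (h7.2 h') _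
    · exact ⟨q, by ring⟩
    · exact dvd_mul_of_dvd_right (h7.2 h') _
    · exact ⟨3 * q, by ring⟩
  exact Nat.Coprime.mul_dvd_of_dvd_of_dvd (by norm_num) a3 a7

theorem eps_eq (hm : m ≠ 0) (h : w21 m ≠ 1) : eps (QQ m) * (χ (QQ m) * χ (-1)) = 1 := by
  unfold w21 at h
  rw [H.neg]
  unfold QQ
  have e21 : χ 21 = jacobiSym m 3 * jacobiSym m 7 := by
    rw [show (21 : ℤ) = 3 * 7 by norm_num, H.mul, H.three, H.seven]
  have v1 : eps 1 = 1 := by decide
  have v3 : eps 3 = -1 := by decide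
  have v7 : eps 7 = 1 := by decide
  have v21 : eps 21 = -1 := by decide
  have h3 := H.three
  have h7 := H.seven
  rw [jac3, jac7] at e21
  rw [jac3] at h3
  rw [jac7] at h7
  by_cases a3 : (3 : ℤ) ∣ m <;> by_cases a7 : (7 : ℤ) ∣ m <;> by_cases a0 : 0 < m
  all_goals
    by_cases b3 : m % 3 = 1 <;> by_cases b7 : m % 7 = 3 ∨ m % 7 = 5 ∨ m % 7 = 6
  all_goals
    first
    | (exfalso; omega)
    | skip
  all_goals
    have c0 : (if m < 0 then (-1 : ℤ) else 1) = if 0 < m then 1 else -1 := by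
      split_ifs <;> omega
    have c3 : m % 3 = 0 ↔ (3 : ℤ) ∣ m := by omega
    have c7 : m % 7 = 0 ↔ (7 : ℤ) ∣ m := by omega
    rw [c0] at h
    simp only [c3, c7, a3, a7, a0, b3, b7, if_true, if_false, mul_one, one_mul] at h h3 h7 e21 ⊢
    push_cast
    first
    | (norm_num at h; done)
    | (norm_num [v1, v3, v7, v21, H.one, h3, h7, e21]; done)

/-- **the central value vanishes** -/
theorem van (hm : m ≠ 0) (h : w21 m ≠ 1) : ∃ f : ℂ → ℂ, IsL (EE m) f ∧ f 1 = 0 := by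
  obtain ⟨_, ψ, h1, h2, h3⟩ := H.dir
  have hq := H.lt
  refine van_L eigen21 (EE m) ψ h1 h2 (fun u => χ u) h3 ?_ H.ap ?_ ?_
  · intro p hp
    by_cases hpq : Nat.Coprime p q
    · exact Or.inr (H.pm p hpq)
    · exact Or.inl (H.zero p hpq)
  · intro p hp
    rw [H.disc p hp]
    refine or_congr Iff.rfl ?_
    constructor
    · intro h4
      exact H.zero p fun h5 => (Nat.Prime.coprime_iff_not_dvd hp).1 h5 h4
    · intro h4
      by_contra h5
      rcases H.pm p ((Nat.Prime.coprime_iff_not_dvd hp).2 h5) with h6 | h6 <;>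
        rw [h6] at h4 <;> norm_num at h4
  · exact van_sum (s := II f21) H.cop H.mul H.per H.pm H.one
      (fun u x y hu => rel (QQ_cases m) (by omega) H.lev hu) (H.eps_eq hm h)

end Chr

theorem EE_odd {m : ℤ} (h4 : m % 4 = 1) : EE m = WN m := if_pos h4

theorem EE_even {m : ℤ} (h4 : m % 4 ≠ 1) : EE m = Em m := if_neg h4

theorem jac_mod {n : ℕ} {a b : ℤ} (h : (n : ℤ) ∣ a - b) : jacobiSym a n = jacobiSym b n := by
  have e : a % (n : ℤ) = b % n := (Int.modEq_iff_dvd.2 h).symm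
  rw [jacobiSym.mod_left a n, jacobiSym.mod_left b n, e]

/-- odd discriminants -/
theorem chr_odd {m : ℤ} (hs : Squarefree m) (h1 : m ≠ 1) (h4 : m % 4 = 1) :
    Chr m m.natAbs (fun u => jacobiSym u m.natAbs) := by
  have hodd : Odd m.natAbs := Nat.odd_iff.2 (by omega)
  have hsn : Squarefree m.natAbs := Int.squarefree_natAbs.2 hs
  have hlt : 1 < m.natAbs := by omega
  haveI : NeZero m.natAbs := ⟨by omega⟩
  obtain ⟨d, hd⟩ : ∃ d : Pool.Agent.H491R3.J.OS, d = ⟨m.natAbs, hodd, hsn, hlt⟩ := ⟨_, rfl⟩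
  refine ⟨hlt, fun a b => jacobiSym.mul_left a b _, fun a b h => jac_mod h, ?_, ?_,
    jacobiSym.one_left _, ?_, ?_, ?_, ?_, ?_, ?_⟩
  · intro u hu
    exact jacobiSym.eq_one_or_neg_one (by rw [Int.gcd_natCast_natCast]; exact hu)
  · intro u hu
    show jacobiSym u m.natAbs = 0
    rw [jacobiSym.eq_zero_iff_not_coprime, Int.gcd_natCast_natCast]
    exact hu
  · show jacobiSym (-1) m.natAbs = _
    rw [jacobiSym.at_neg_one hodd]
    split_ifs with h
    · exact ZMod.χ₄_nat_one_mod_four (by omega)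
    · exact ZMod.χ₄_nat_three_mod_four (by omega)
  · intro p hp hp2
    exact (Pool.Agent.N875.X15.recip h4 (hp.odd_of_ne_two hp2)).symm
  · intro p _ _
    exact Int.natCast_dvd.symm
  · subst hd
    exact ⟨inferInstance, H491R3.J.chi ⟨m.natAbs, hodd, hsn, hlt⟩,
      H491R3.J.chi_primitive ⟨m.natAbs, hodd, hsn, hlt⟩,
      H491R3.J.chi_inv ⟨m.natAbs, hodd, hsn, hlt⟩,
      H491R3.J.chi_natCast ⟨m.natAbs, hodd, hsn, hlt⟩⟩
  · intro p hp
    rw [EE_odd h4]
    exact ap_WN h4 p hp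
  · intro p hp
    rw [EE_odd h4, dvd_Δ (WN_Δ h4) hp, Int.natCast_dvd]

theorem d2 {p : ℕ} (hp : p.Prime) (hp2 : p ≠ 2) {k : ℕ} : p ∣ 4 * k ↔ p ∣ k := by
  have hc : Nat.Coprime p 4 := by
    rw [show (4 : ℕ) = 2 ^ 2 by norm_num]
    exact Nat.Coprime.pow_right 2 ((Nat.coprime_primes hp Nat.prime_two).2 hp2)
  exact hc.dvd_mul_left

open Pool.Agent.N969.P15 (Ev chE) in
open Pool.Agent.N975.ChE in
/-- negative even discriminants -/
theorem chr_neg {m : ℤ} (hs : Squarefree m) (h0 : m < 0) (h4 : m % 4 ≠ 1) :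
    Chr m (4 * m.natAbs) (fun u => chE (4 * m.natAbs) u) := by
  have hsn : Squarefree m.natAbs := Int.squarefree_natAbs.2 hs
  have h44 : m.natAbs % 4 ≠ 0 := by
    intro h0
    have h1 : 2 * 2 ∣ m.natAbs := by omega
    exact absurd (Nat.isUnit_iff.1 (hsn 2 h1)) (by norm_num)
  have hE : Ev (4 * m.natAbs) := ⟨m.natAbs, rfl, hsn, by omega⟩
  have hm := ev_mod hE
  haveI : NeZero (4 * m.natAbs) := ⟨by omega⟩
  have e4 : ((4 * m.natAbs / 4 : ℕ) : ℤ) = -m := by omega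
  refine ⟨by omega, chE_mul _, fun a b h => chE_mod hm h, fun u hu => chE_pm hm hu,
    fun u hu => chE_zero hm hu, chE_one _, ?_, ?_, ?_, ?_, ?_, ?_⟩
  · show chE (4 * m.natAbs) (-1) = _
    rw [Pool.Agent.N975.CHB.chE_neg_one hE, if_neg (by omega)]
  · intro p hp hp2
    show chE (4 * m.natAbs) p = _
    rw [chE_prime hE hp hp2, e4, neg_neg]
  · intro p hp hp2
    rw [d2 hp hp2]
    exact Int.natCast_dvd.symm
  · exact ⟨inferInstance, chi (4 * m.natAbs) hm, chi_primitive hE, chi_inv _ hm, chi_nat _ hm⟩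
  · intro p hp
    have := ap_En hE p hp
    rw [e4, neg_neg] at this
    rw [EE_even h4]
    exact this
  · intro p hp
    rw [EE_even h4, dvd_Δ (Em_Δ' m) hp, Int.natCast_dvd, Int.natAbs_mul]
    rfl

open Pool.Agent.N974.Gen.ChP in
/-- positive even discriminants -/
theorem chr_pos {m : ℤ} (hs : Squarefree m) (h0 : 0 < m) (h4 : m % 4 ≠ 1) :
    Chr m (4 * m.natAbs) (fun u => Pool.Agent.N974.Gen.ChP.chE (4 * m.natAbs) u) := by
  have hsn : Squarefree m.natAbs := Int.squarefree_natAbs.2 hs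
  have h44 : m.natAbs % 4 ≠ 0 := by
    intro h0
    have h1 : 2 * 2 ∣ m.natAbs := by omega
    exact absurd (Nat.isUnit_iff.1 (hsn 2 h1)) (by norm_num)
  have hE : Pool.Agent.N974.Gen.ChP.Ev (4 * m.natAbs) := ⟨m.natAbs, rfl, hsn, by omega⟩
  have hm := ev_mod hE
  haveI : NeZero (4 * m.natAbs) := ⟨by omega⟩
  have e4 : ((4 * m.natAbs / 4 : ℕ) : ℤ) = m := by omega
  refine ⟨by omega, chE_mul _, fun a b h => chE_mod hm h, fun u hu => chE_pm hm hu,
    fun u hu => chE_zero hm hu, chE_one _, ?_, ?_, ?_, ?_, ?_, ?_⟩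
  · show Pool.Agent.N974.Gen.ChP.chE (4 * m.natAbs) (-1) = _
    rw [Pool.Agent.N974.PG.chE_neg_one hE, if_pos h0]
  · intro p hp hp2
    show Pool.Agent.N974.Gen.ChP.chE (4 * m.natAbs) p = _
    rw [Pool.Agent.N974.Gen.ChP.chE_prime hE hp hp2, e4]
  · intro p hp hp2
    rw [d2 hp hp2]
    exact Int.natCast_dvd.symm
  · exact ⟨inferInstance, chi (4 * m.natAbs) hm, chi_primitive hE, chi_inv _ hm, chi_nat _ hm⟩
  · intro p hp
    have := ap_Ep hE p hp
    rw [e4] at this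
    rw [EE_even h4]
    exact this
  · intro p hp
    rw [EE_even h4, dvd_Δ (Em_Δ' m) hp, Int.natCast_dvd, Int.natAbs_mul]
    rfl

theorem exists_chr {m : ℤ} (hs : Squarefree m) (h1 : m ≠ 1) : ∃ q χ, Chr m q χ := by
  by_cases h4 : m % 4 = 1
  · exact ⟨_, _, chr_odd hs h1 h4⟩
  · rcases lt_trichotomy m 0 with h0 | h0 | h0
    · exact ⟨_, _, chr_neg hs h0 h4⟩
    · exact absurd h0 hs.ne_zero
    · exact ⟨_, _, chr_pos hs h0 h4⟩

/-! ### the real period -/

/-- the discriminant of the field -/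
def KD (m : ℤ) : ℤ := if m % 4 = 1 then m else 4 * m

theorem c4_EE (m : ℤ) : (EE m).c₄ = 193 * (KD m) ^ 2 := by
  unfold KD
  split_ifs with h
  · rw [EE_odd h, c4_WN h]
  · rw [EE_even h, c4_Em]
    ring

theorem c6_EE (m : ℤ) : (EE m).c₆ = 575 * (KD m) ^ 3 := by
  unfold KD
  split_ifs with h
  · rw [EE_odd h, c6_WN h]
  · rw [EE_even h, c6_Em]
    ring

theorem omega_pos {W : WeierstrassCurve ℤ} {D : ℤ} (hD : D ≠ 0) (h4 : W.c₄ = 193 * D ^ 2)
    (h6 : W.c₆ = 575 * D ^ 3) : 0 < Omega W := by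
  obtain ⟨L, Op, Om, hOp, hOm, g2, g3, hL⟩ := Pool.Agent.N975.LatGen.lat21
  rcases lt_or_gt_of_ne hD with h | h
  · obtain ⟨k, hk⟩ := Int.eq_ofNat_of_zero_le (by omega : 0 ≤ -D)
    have e : D = -(k : ℤ) := by omega
    subst e
    have hk0 : 0 < k := by omega
    rw [Pool.Agent.N971.EX.omega_neg L Op Om hOp hOm (c4 := 193) (c6 := 575)
      (by rw [g2]; push_cast; rfl) (by rw [g3]; push_cast; rfl) hL k hk0 W
      (by rw [h4]; ring) (by rw [h6]; ring)]
    have : (0 : ℝ) < k := by exact_mod_cast hk0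
    positivity
  · obtain ⟨k, hk⟩ := Int.eq_ofNat_of_zero_le (by omega : 0 ≤ D)
    subst hk
    have hk0 : 0 < k := by omega
    rw [Pool.Agent.N971.EX.omega_pos L Op Om hOp hOm (c4 := 193) (c6 := 575)
      (by rw [g2]; push_cast; rfl) (by rw [g3]; push_cast; rfl) hL k hk0 W
      (by rw [h4]) (by rw [h6])]
    have : (0 : ℝ) < k := by exact_mod_cast hk0
    positivity

theorem KD_ne {m : ℤ} (h : m ≠ 0) : KD m ≠ 0 := by
  unfold KD
  split_ifs <;> omega

theorem omega_EE {m : ℤ} (h : m ≠ 0) : 0 < Omega (EE m) :=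
  omega_pos (KD_ne h) (c4_EE m) (c6_EE m)

/-- **all the quadratic twists with the root number `-1`: the central value vanishes** -/
theorem vanish : ∀ m : ℤ, Squarefree m → m ≠ 1 → w21 m ≠ 1 →
    0 < Omega (EE m) ∧ ∃ f : ℂ → ℂ, IsL (EE m) f ∧ f 1 = 0 := by
  intro m hs h1 h
  obtain ⟨q, χ, H⟩ := exists_chr hs h1
  exact ⟨omega_EE hs.ne_zero, H.van hs.ne_zero h⟩

end Pool.Agent.N975.S21V
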