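import Pool.Agent.N974.Gen.Class
import Pool.Agent.N971.EX.Val
import Pool.Agent.N871.S17.Van

/-!
# The Atkin-Lehner involutions, the integral symbol and the vanishing of the central values: the
general part (any level)
-/

set_option autoImplicit false
set_option linter.style.haveILetI false

open UpperHalfPlane MatrixGroups CongruenceSubgroup Filter Topology ZMod

namespace Pool.Agent.N975.S21V

open Pool.Agent.N974.Gen
open Pool.Agent.W97.MT (ap)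
open Pool.Agent.Y700 (IsL)
open Pool.Agent.N969.P15 (un)

section mob

variable {N : ℕ} [NeZero N] (f : CuspForm (Gamma0 N : Subgroup (GL (Fin 2) ℝ)) 2)

/-- a map which multiplies the form by a constant -/
def Mb (A B C D : ℤ) (ε : ℂ) : Prop := ∃ p : ℂ, ∀ z : ℂ, 0 < z.im →
  F f (((A : ℂ) * z + B) / ((C : ℂ) * z + D)) = ε * F f z + p

theorem pos_of {A B C D : ℤ} (h : 0 < A * D - B * C) {z : ℂ} (hz : 0 < z.im) :
    0 < (((A : ℂ) * z + B) / ((C : ℂ) * z + D)).im := by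
  have h' : (0 : ℝ) < (A : ℝ) * D - B * C := by exact_mod_cast h
  have := gam_posR h' hz
  push_cast at this
  exact this

theorem den_of {A B C D : ℤ} (h : 0 < A * D - B * C) {z : ℂ} (hz : 0 < z.im) :
    (C : ℂ) * z + D ≠ 0 := by
  have := Pool.Agent.N974.MF.den_ne (C := (C : ℝ)) (D := (D : ℝ)) (by
    by_contra hcon
    push Not at hcon
    have h1 : C = 0 := by exact_mod_cast hcon.1
    have h2 : D = 0 := by exact_mod_cast hcon.2
    rw [h1, h2] at h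
    simp at h) hz
  push_cast at this
  exact this

variable {f}

theorem mb_comp {A B C D A' B' C' D' : ℤ} {ε ε' : ℂ} (h : Mb f A B C D ε)
    (h' : Mb f A' B' C' D' ε') (hd' : 0 < A' * D' - B' * C') :
    Mb f (A * A' + B * C') (A * B' + B * D') (C * A' + D * C') (C * B' + D * D') (ε * ε') := by
  obtain ⟨p, hp⟩ := h
  obtain ⟨p', hp'⟩ := h'
  refine ⟨ε * p' + p, fun z hz => ?_⟩
  have h1 := hp _ (pos_of hd' hz)
  have h0 := den_of hd' hz
  rw [hp' z hz] at h1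
  have e : ((A : ℂ) * (((A' : ℂ) * z + B') / ((C' : ℂ) * z + D')) + B) /
      ((C : ℂ) * (((A' : ℂ) * z + B') / ((C' : ℂ) * z + D')) + D) =
      (((A * A' + B * C' : ℤ) : ℂ) * z + ((A * B' + B * D' : ℤ) : ℂ)) /
        (((C * A' + D * C' : ℤ) : ℂ) * z + ((C * B' + D * D' : ℤ) : ℂ)) := by
    have e1 : (A : ℂ) * (((A' : ℂ) * z + B') / ((C' : ℂ) * z + D')) + B =
        (((A * A' + B * C' : ℤ) : ℂ) * z + ((A * B' + B * D' : ℤ) : ℂ)) /
          ((C' : ℂ) * z + D') := by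
      rw [eq_div_iff h0, add_mul, mul_assoc, div_mul_cancel₀ _ h0]
      push_cast
      ring
    have e2 : (C : ℂ) * (((A' : ℂ) * z + B') / ((C' : ℂ) * z + D')) + D =
        (((C * A' + D * C' : ℤ) : ℂ) * z + ((C * B' + D * D' : ℤ) : ℂ)) /
          ((C' : ℂ) * z + D') := by
      rw [eq_div_iff h0, add_mul, mul_assoc, div_mul_cancel₀ _ h0]
      push_cast
      ring
    rw [e1, e2, div_div_div_cancel_right₀ h0]
  rw [e] at h1
  rw [h1]
  ring

theorem mb_smul {A B C D k : ℤ} {ε : ℂ} (hk : k ≠ 0)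
    (h : Mb f (k * A) (k * B) (k * C) (k * D) ε) : Mb f A B C D ε := by
  obtain ⟨p, hp⟩ := h
  refine ⟨p, fun z hz => ?_⟩
  rw [← hp z hz]
  congr 1
  have hk' : (k : ℂ) ≠ 0 := by exact_mod_cast hk
  push_cast
  rw [show (k : ℂ) * A * z + k * B = k * (A * z + B) by ring,
    show (k : ℂ) * C * z + k * D = k * (C * z + D) by ring, mul_div_mul_left _ _ hk']

theorem mb_gamma {a b c d : ℤ} (h : a * d - b * (N * c) = 1) : Mb f a b (N * c) d 1 := by
  obtain ⟨p, hp⟩ := F_gamma f (a := a) (b := b) (c := c) (d := d) h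
  refine ⟨p, fun z hz => ?_⟩
  rw [one_mul, ← hp z hz]
  push_cast
  rfl

/-- the maps which multiply the form by a constant, from the transformation of the form -/
theorem mb_of {A B C D : ℤ} (hdet : 0 < A * D - B * C) {ε : ℂ}
    (hf : ∀ z : ℂ, 0 < z.im → ff f ((A * z + B) / (C * z + D)) * (A * D - B * C) =
      ε * (C * z + D) ^ 2 * ff f z) : Mb f A B C D ε := by
  obtain ⟨p, hp⟩ := F_mob (f := f) (A := (A : ℝ)) (B := (B : ℝ)) (C := (C : ℝ)) (D := (D : ℝ))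
    (by exact_mod_cast hdet) (ε := ε) (fun z hz => by
      have := hf z hz
      push_cast
      exact this)
  refine ⟨p, fun z hz => ?_⟩
  rw [← hp z hz]
  push_cast
  rfl

/-- the values at the image and at the preimage of infinity -/
theorem pole {A B C D : ℤ} {ε : ℂ} (h : Mb f A B C D ε) (hd : 0 < A * D - B * C) (hC : C ≠ 0) :
    II f ((A : ℚ) / C) = -ε * II f (-(D : ℚ) / C) := by
  obtain ⟨p, hp⟩ := h
  have h' : (0 : ℝ) < (A : ℝ) * D - B * C := by exact_mod_cast hd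
  have hC' : (C : ℝ) ≠ 0 := by exact_mod_cast hC
  have hp' : ∀ z : ℂ, 0 < z.im → F f ((((A : ℝ) : ℂ) * z + ((B : ℝ) : ℂ)) /
      (((C : ℝ) : ℂ) * z + ((D : ℝ) : ℂ))) = ε * F f z + p := by
    intro z hz
    have := hp z hz
    push_cast
    exact this
  have h1 := mob_II_inf f h' hp' ((A : ℚ) / C) hC' (by
    push_cast
    rw [div_mul_cancel₀ _ hC'])
  have h2 := mob_II_pole f h' hp' (-(D : ℚ) / C) hC' (by
    push_cast
    rw [mul_div_cancel₀ _ hC']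
    ring)
  rw [h1]
  linear_combination h2

/-- the relation of the symbol from the map `(Q x, y; -Q n, Q u)` -/
theorem rel_of {Q n : ℕ} (hQ : 0 < Q) (hn : 0 < n) {u x y : ℤ} (h : Q * x * u + y * n = 1)
    {ε : ℂ} (key : Mb f (Q * x) y (-(Q * n)) (Q * u) ε) :
    II f (-(x : ℚ) / n) = -ε * II f ((u : ℚ) / n) := by
  have hQp : (0 : ℤ) < Q := by exact_mod_cast hQ
  have hQ0 : (Q : ℤ) ≠ 0 := hQp.ne'
  have hnZ : (n : ℤ) ≠ 0 := by exact_mod_cast hn.ne'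
  have h3 := pole key (by
    have e : (Q : ℤ) * x * (Q * u) - y * -(Q * n) = Q * (Q * x * u + y * n) := by ring
    rw [e, h, mul_one]
    exact hQp) (neg_ne_zero.2 (mul_ne_zero hQ0 hnZ))
  have hQq : (Q : ℚ) ≠ 0 := by exact_mod_cast hQ0
  have e5 : (((Q : ℤ) * x : ℤ) : ℚ) / ((-((Q : ℤ) * n) : ℤ) : ℚ) = -(x : ℚ) / n := by
    push_cast
    rw [div_neg, neg_div, mul_div_mul_left _ _ hQq]
  have e6 : -(((Q : ℤ) * u : ℤ) : ℚ) / ((-((Q : ℤ) * n) : ℤ) : ℚ) = (u : ℚ) / n := by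
    push_cast
    rw [neg_div_neg_eq, mul_div_mul_left _ _ hQq]
  rw [e5, e6] at h3
  exact h3

end mob

/-- **the character sum of the symbol vanishes** -/
theorem van_sum {s : ℚ → ℂ} {Q n : ℕ} [NeZero n] (hQn : Nat.Coprime Q n) {χ : ℤ → ℤ} {ε : ℤ}
    (mul : ∀ a b, χ (a * b) = χ a * χ b) (per : ∀ a b, (n : ℤ) ∣ a - b → χ a = χ b)
    (pm : ∀ u : ℕ, Nat.Coprime u n → χ u = 1 ∨ χ u = -1) (one : χ 1 = 1)
    (hs : ∀ u x y : ℤ, Q * x * u + y * n = 1 → s (-(x : ℚ) / n) = -(ε : ℂ) * s ((u : ℚ) / n))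
    (hε : ε * (χ Q * χ (-1)) = 1) : ∑ u ∈ un n, (χ u : ℂ) * s ((u : ℚ) / n) = 0 := by
  obtain ⟨t, ht⟩ : ∃ t : (ZMod n)ˣ, t = ZMod.unitOfCoprime Q hQn := ⟨_, rfl⟩
  have htv : (t : ZMod n) = Q := by
    rw [ht, ZMod.coe_unitOfCoprime]
  refine Pool.Agent.N871.S17.van_core (n := n) (σ := fun u => -(t * u)⁻¹) ?_
    (fun u : ℕ => (χ u : ℂ) * s ((u : ℚ) / n)) ?_
  · intro u
    show -(t * -(t * u)⁻¹)⁻¹ = u
    rw [mul_neg, inv_neg, neg_neg, mul_inv_rev, inv_inv]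
    rw [mul_assoc, mul_comm u, ← mul_assoc, mul_inv_cancel, one_mul]
  · intro u
    obtain ⟨v, hv⟩ : ∃ v : (ZMod n)ˣ, v = -(t * u)⁻¹ := ⟨_, rfl⟩
    rw [← hv]
    have hdv : (n : ℤ) ∣ (-1) * (Q * ((((u : ZMod n).val : ℕ) : ℤ) *
        (((v : ZMod n).val : ℕ) : ℤ))) - 1 := by
      rw [← ZMod.intCast_zmod_eq_zero_iff_dvd]
      push_cast
      rw [ZMod.natCast_zmod_val, ZMod.natCast_zmod_val]
      have h7 : ((t * u : (ZMod n)ˣ) : ZMod n) * (v : ZMod n) = -1 := by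
        rw [hv, Units.val_neg, mul_neg, Units.mul_inv]
      rw [Units.val_mul, htv] at h7
      linear_combination -h7
    have h1 := per _ _ hdv
    rw [mul, mul, mul, one] at h1
    have h2 := pm _ (ZMod.val_coe_unit_coprime u)
    have h3 := pm _ (ZMod.val_coe_unit_coprime v)
    have h4 : s (((((v : ZMod n).val : ℕ) : ℤ) : ℚ) / n) =
        -(ε : ℂ) * s (((((u : ZMod n).val : ℕ) : ℤ) : ℚ) / n) := by
      obtain ⟨k, hk⟩ := hdv
      have h5 := hs (((u : ZMod n).val : ℕ) : ℤ) (-(((v : ZMod n).val : ℕ) : ℤ)) (-k)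
        (by linear_combination hk)
      rw [Int.cast_neg, neg_neg] at h5
      exact h5
    show ((χ (((v : ZMod n).val : ℕ) : ℤ) : ℤ) : ℂ) * s ((((v : ZMod n).val : ℕ) : ℚ) / n) =
      -(((χ (((u : ZMod n).val : ℕ) : ℤ) : ℤ) : ℂ) * s ((((u : ZMod n).val : ℕ) : ℚ) / n))
    rw [Int.cast_natCast, Int.cast_natCast] at h4
    rw [h4]
    have h6 : χ (((v : ZMod n).val : ℕ) : ℤ) * ε = χ (((u : ZMod n).val : ℕ) : ℤ) := by
      have hmul : χ (-1) * (χ Q * (χ (((u : ZMod n).val : ℕ) : ℤ) *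
        χ (((v : ZMod n).val : ℕ) : ℤ))) = 1 := h1
      rcases h2 with h2 | h2 <;> rcases h3 with h3 | h3 <;> rw [h2, h3] at hmul ⊢ <;>
        nlinarith [hmul, hε]
    have h7 : ((χ (((u : ZMod n).val : ℕ) : ℤ) : ℤ) : ℂ) =
        ((χ (((v : ZMod n).val : ℕ) : ℤ) : ℤ) : ℂ) * (ε : ℂ) := by
      rw [← h6]
      push_cast
      rfl
    rw [h7]
    ring

section L

variable {N : ℕ} [NeZero N] {f : CuspForm (Gamma0 N : Subgroup (GL (Fin 2) ℝ)) 2} {a : ℕ → ℤ}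

/-- **the central value vanishes** -/
theorem van_L (h : Eigen f a) (W : WeierstrassCurve ℤ) {q : ℕ} [NeZero q]
    (χ : DirichletCharacter ℂ q) (hχ : χ.IsPrimitive) (hinv : χ⁻¹ = χ)
    (w : ℕ → ℤ) (hw : ∀ u : ℕ, χ (u : ZMod q) = (w u : ℂ))
    (hv : ∀ p : ℕ, p.Prime → w p = 0 ∨ w p = 1 ∨ w p = -1)
    (ha : ∀ p : ℕ, p.Prime → ap W p = a p * w p)
    (hΔ : ∀ p : ℕ, p.Prime → ((p : ℤ) ∣ W.Δ ↔ p ∣ N ∨ w p = 0))
    (hS : ∑ u ∈ un q, (w u : ℂ) * II f ((u : ℚ) / q) = 0) :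
    ∃ g : ℂ → ℂ, IsL W g ∧ g 1 = 0 := by
  obtain ⟨g, hg, hv'⟩ := Pool.Agent.N971.EX.exists_LG h W χ hχ hinv w hw hv ha hΔ
  refine ⟨g, hg, ?_⟩
  rw [hS] at hv'
  have h1 := Pool.Agent.W378.CY.gauss_prod q χ hχ
  refine (mul_eq_zero.1 hv').resolve_left fun h0 => ?_
  rw [h0, zero_mul, mul_zero] at h1
  have : (q : ℂ) ≠ 0 := by exact_mod_cast (NeZero.ne q)
  exact this h1.symm

end L

end Pool.Agent.N975.S21V
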