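import Pool.Agent.N402.MF21.Asm
import Pool.Agent.N975.S21V.Mob

/-!
# The Atkin-Lehner involutions and the integral symbol of level `21`
-/

set_option autoImplicit false

open UpperHalfPlane MatrixGroups CongruenceSubgroup Filter Topology

namespace Pool.Agent.N975.S21V

open Pool.Agent.N974.Gen
open Pool.Agent.N402.MF21 (f21 eigen21 gff w21_pos fricke21 al3)

theorem mb_gamma21 {a b c d : ℤ} (h : a * d - b * (21 * c) = 1) : Mb f21 a b (21 * c) d 1 := by
  have := mb_gamma (f := f21) (a := a) (b := b) (c := c) (d := d) (by exact_mod_cast h)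
  exact_mod_cast this

theorem mb21 : Mb f21 0 (-1) 21 0 (-1) := by
  obtain ⟨p, hp⟩ := N974.Gen.F_mob (f := f21) (A := 0) (B := -1) (C := 21) (D := 0) (by norm_num)
    (ε := -1) (fun z hz => by
      have h1 := fricke21 hz
      have h2 := w21_pos hz
      have e : (((0 : ℝ) : ℂ) * z + ((-1 : ℝ) : ℂ)) / (((21 : ℝ) : ℂ) * z + ((0 : ℝ) : ℂ)) =
          -1 / (21 * z) := by push_cast; congr 1 <;> ring
      rw [e, gff h2, gff hz, h1]
      push_cast
      ring)
  refine ⟨p, fun z hz => ?_⟩
  rw [← hp z hz]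
  push_cast
  rfl

theorem mb3 : Mb f21 9 (-4) 21 (-9) (-1) := by
  obtain ⟨p, hp⟩ := N974.Gen.F_mob (f := f21) (A := 9) (B := -4) (C := 21) (D := -9) (by norm_num)
    (ε := -1) (fun z hz => by
      obtain ⟨h2, h1⟩ := al3 hz
      have e : (((9 : ℝ) : ℂ) * z + ((-4 : ℝ) : ℂ)) / (((21 : ℝ) : ℂ) * z + ((-9 : ℝ) : ℂ)) =
          (9 * z - 4) / (21 * z - 9) := by push_cast; congr 1
      rw [e, gff h2, gff hz]
      push_cast
      linear_combination h1)
  refine ⟨p, fun z hz => ?_⟩
  rw [← hp z hz]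
  push_cast
  rfl

theorem mb7 : Mb f21 (-7) 3 63 (-28) 1 := by
  have h := mb_comp mb21 mb3 (by norm_num)
  norm_num at h
  exact mb_smul (k := 3) (by norm_num) (by norm_num; exact h)

/-- the eigenvalues of the form -/
def eps (Q : ℕ) : ℤ := if Q = 1 ∨ Q = 7 then 1 else -1

/-- **the involutions and the integral symbol** -/
theorem rel {Q n : ℕ} (hQ : Q = 1 ∨ Q = 3 ∨ Q = 7 ∨ Q = 21) (hn : 0 < n) (hN : 21 ∣ Q * n)
    {u x y : ℤ} (h : Q * x * u + y * n = 1) :
    II f21 (-(x : ℚ) / n) = -(eps Q : ℂ) * II f21 ((u : ℚ) / n) := by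
  have key : Mb f21 (Q * x) y (-(Q * n)) (Q * u) (eps Q : ℂ) := by
    obtain ⟨k, hk⟩ := hN
    have hkZ : (Q : ℤ) * n = 21 * k := by exact_mod_cast hk
    rcases hQ with rfl | rfl | rfl | rfl
    · -- `Q = 1`
      have h1 := mb_gamma21 (a := x) (b := y) (c := -k) (d := u) (by
        push_cast at h hkZ
        linear_combination h - y * hkZ)
      have e : -(((1 : ℕ) : ℤ) * n) = 21 * -(k : ℤ) := by rw [hkZ]; ring
      rw [e]
      simpa [eps] using h1
    · -- `Q = 3`
      have hn7 : (n : ℤ) = 7 * k := by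
        push_cast at hkZ
        omega
      have h1 := mb_gamma21 (a := -9 * x - 7 * y) (b := 4 * x + 3 * y) (c := 3 * k - u)
        (d := 9 * u - 28 * k) (by
          push_cast at h
          rw [hn7] at h
          linear_combination h)
      have h2 := mb_comp h1 mb3 (by norm_num)
      have e1 : (-9 * x - 7 * y) * 9 + (4 * x + 3 * y) * 21 = ((3 : ℕ) : ℤ) * x := by
        push_cast; ring
      have e2 : (-9 * x - 7 * y) * -4 + (4 * x + 3 * y) * -9 = y := by ring
      have e3 : 21 * (3 * (k : ℤ) - u) * 9 + (9 * u - 28 * k) * 21 = -(((3 : ℕ) : ℤ) * n) := by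
        rw [hn7]; push_cast; ring
      have e4 : 21 * (3 * (k : ℤ) - u) * -4 + (9 * u - 28 * k) * -9 = ((3 : ℕ) : ℤ) * u := by
        push_cast; ring
      rw [e1, e2, e3, e4] at h2
      simpa [eps] using h2
    · -- `Q = 7`
      have hn3 : (n : ℤ) = 3 * k := by
        push_cast at hkZ
        omega
      have h1 := mb_gamma21 (a := -28 * x - 9 * y) (b := -3 * x - y) (c := 4 * k - 3 * u)
        (d := 9 * k - 7 * u) (by
          push_cast at h
          rw [hn3] at h
          linear_combination h)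
      have h2 := mb_comp h1 mb7 (by norm_num)
      have e1 : (-28 * x - 9 * y) * -7 + (-3 * x - y) * 63 = ((7 : ℕ) : ℤ) * x := by
        push_cast; ring
      have e2 : (-28 * x - 9 * y) * 3 + (-3 * x - y) * -28 = y := by ring
      have e3 : 21 * (4 * (k : ℤ) - 3 * u) * -7 + (9 * k - 7 * u) * 63 = -(((7 : ℕ) : ℤ) * n) := by
        rw [hn3]; push_cast; ring
      have e4 : 21 * (4 * (k : ℤ) - 3 * u) * 3 + (9 * k - 7 * u) * -28 = ((7 : ℕ) : ℤ) * u := by
        push_cast; ring
      rw [e1, e2, e3, e4] at h2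
      simpa [eps] using h2
    · -- `Q = 21`
      have h1 := mb_gamma21 (a := -y) (b := x) (c := -u) (d := -n) (by
        push_cast at h
        linear_combination h)
      have h2 := mb_comp h1 mb21 (by norm_num)
      have e1 : -y * 0 + x * 21 = ((21 : ℕ) : ℤ) * x := by push_cast; ring
      have e2 : -y * -1 + x * 0 = y := by ring
      have e3 : 21 * -u * 0 + -(n : ℤ) * 21 = -(((21 : ℕ) : ℤ) * n) := by push_cast; ring
      have e4 : 21 * -u * -1 + -(n : ℤ) * 0 = ((21 : ℕ) : ℤ) * u := by push_cast; ring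
      rw [e1, e2, e3, e4] at h2
      simpa [eps] using h2
  exact rel_of (by rcases hQ with rfl | rfl | rfl | rfl <;> norm_num) hn h key

end Pool.Agent.N975.S21V
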